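import Mathlib
import Pool.Agent.X231.LU

set_option autoImplicit false

open Matrix Pool.Agent.X231.LU

namespace Pool.Agent.Results.MP_7af562_mp.FiveQubits

/-- Generators `ZZZZI`, `XXIIX`, `IIXXX` of `S_A` (codes `0 = I`, `1 = X`, `2 = Y`, `3 = Z`). -/
def SA : Fin 3 → Fin 5 → Fin 4 :=
  ![![3, 3, 3, 3, 0], ![1, 1, 0, 0, 1], ![0, 0, 1, 1, 1]]

/-- Generators `ZZIZX`, `XIZXI`, `IXXYI` of `S_B`. -/
def SB : Fin 3 → Fin 5 → Fin 4 :=
  ![![3, 3, 0, 3, 1], ![1, 0, 3, 1, 0], ![0, 1, 1, 2, 0]]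

theorem supp3 : ∀ ω : Finset (Fin 5), ω.card = 3 →
    (∃ c : Fin 3 → Bool, c ≠ (fun _ => false) ∧ ∀ j, j ∉ ω → code SB c j = 0) →
      ω = {0, 2, 3} ∨ ω = {1, 2, 3} := by
  decide

/-- The codespaces of `S_A` and `S_B` are not locally unitarily equivalent. -/
theorem result : ¬ LUEquiv (codespace SA) (codespace SB) := by
  intro h
  obtain ⟨π, hπ⟩ := key SA SB (fun k l => pauliString_comm _ _ (by revert k l; decide))
    (by decide) h
  have hk : ∀ k, k = 1 ∨ k = 2 →
      (Finset.univ.filter fun i => SA k i ≠ 0).map π.toEmbedding = {0, 2, 3} ∨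
      (Finset.univ.filter fun i => SA k i ≠ 0).map π.toEmbedding = {1, 2, 3} := by
    intro k hk
    apply supp3
    · rw [Finset.card_map]
      rcases hk with rfl | rfl <;> decide
    · obtain ⟨c, hc1, hc2⟩ := hπ k (by rcases hk with rfl | rfl <;> decide)
      refine ⟨c, hc1, fun j hj => hc2 j ?_⟩
      by_contra hne
      apply hj
      rw [Finset.mem_map]
      exact ⟨π.symm j, by simpa using hne, by simp⟩
  have h1 := hk 1 (Or.inl rfl)
  have h2 := hk 2 (Or.inr rfl)
  have hi : ((Finset.univ.filter fun i => SA 1 i ≠ 0).map π.toEmbedding ∩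
      (Finset.univ.filter fun i => SA 2 i ≠ 0).map π.toEmbedding).card = 1 := by
    rw [← Finset.map_inter, Finset.card_map]
    decide
  rcases h1 with h1 | h1 <;> rcases h2 with h2 | h2 <;> rw [h1, h2] at hi <;> revert hi <;> decide

end Pool.Agent.Results.MP_7af562_mp.FiveQubits
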