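import Mathlib
import Pool.Agent.X231.LU

set_option autoImplicit false

open Matrix Pool.Agent.X231.LU

namespace Pool.Agent.Results.MP_7af562_mp.SixQubits

/-- Generators `XXIIXX`, `IIXXXX`, `ZZZZIX` of `S_+` (codes `0 = I`, `1 = X`, `2 = Y`, `3 = Z`). -/
def Splus : Fin 3 → Fin 6 → Fin 4 :=
  ![![1, 1, 0, 0, 1, 1], ![0, 0, 1, 1, 1, 1], ![3, 3, 3, 3, 0, 1]]

/-- Generators `XXZXII`, `ZZXYII`, `IZZZXX` of `S_-`. -/
def Sminus : Fin 3 → Fin 6 → Fin 4 :=
  ![![1, 1, 3, 1, 0, 0], ![3, 3, 1, 2, 0, 0], ![0, 3, 3, 3, 1, 1]]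

theorem supp4 : ∀ ω : Finset (Fin 6), ω.card = 4 →
    (∃ c : Fin 3 → Bool, c ≠ (fun _ => false) ∧ ∀ j, j ∉ ω → code Sminus c j = 0) →
      ω = {0, 1, 2, 3} := by
  decide

/-- The codespaces of `S_+` and `S_-` are not locally unitarily equivalent. -/
theorem result : ¬ LUEquiv (codespace Splus) (codespace Sminus) := by
  intro h
  obtain ⟨π, hπ⟩ := key Splus Sminus (fun k l => pauliString_comm _ _ (by revert k l; decide))
    (by decide) h
  have hk : ∀ k, k = 0 ∨ k = 1 →
      (Finset.univ.filter fun i => Splus k i ≠ 0).map π.toEmbedding = {0, 1, 2, 3} := by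
    intro k hk
    apply supp4
    · rw [Finset.card_map]
      rcases hk with rfl | rfl <;> decide
    · obtain ⟨c, hc1, hc2⟩ := hπ k (by rcases hk with rfl | rfl <;> decide)
      refine ⟨c, hc1, fun j hj => hc2 j ?_⟩
      by_contra hne
      apply hj
      rw [Finset.mem_map]
      exact ⟨π.symm j, by simpa using hne, by simp⟩
  have h1 := hk 0 (Or.inl rfl)
  have h2 := hk 1 (Or.inr rfl)
  have hi : ((Finset.univ.filter fun i => Splus 0 i ≠ 0).map π.toEmbedding ∩
      (Finset.univ.filter fun i => Splus 1 i ≠ 0).map π.toEmbedding).card = 2 := by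
    rw [← Finset.map_inter, Finset.card_map]
    decide
  rw [h1, h2] at hi
  revert hi
  decide

end Pool.Agent.Results.MP_7af562_mp.SixQubits
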